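import Pool.Agent.helper36.PP.SpecD
import Pool.Agent.helper30.MP.TR

/-!
# Project pp: module SHF (shift of the base point)
-/

set_option autoImplicit false

open Complex Metric Set Filter Topology MeasureTheory MPS MQ

noncomputable section

namespace PPS

theorem SHF_BB (k : ℕ) [NeZero k] (b g : ZMod k → ℂ) (s : ZMod k) :
    BB (fun j => b (s + j)) (fun j => g (s + j)) = BB b g :=
  funext (TR_BB k b g s)

theorem SHF : SHF_stmt := by
  intro k _ f b g ψ s
  refine ⟨?_, ?_, ?_, ?_, ?_, ?_⟩
  · intro i q
    unfold Kq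
    simp only [add_sub_assoc]
  · intro G Ω Q
    constructor
    · intro h
      exact ⟨(TR_nat k b g s _ _).1 h.nat0, h.diff, h.rel⟩
    · intro h
      exact ⟨(TR_nat k b g s _ _).2 h.nat0, h.diff, h.rel⟩
  · intro G w
    unfold dens Df er
    rw [SHF_BB]
  · intro z
    unfold er
    rw [SHF_BB]
  · intro G q w
    unfold tau
    rw [SHF_BB]
  · intro G q w
    unfold lev tau
    rw [SHF_BB]

end PPS
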