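import Pool.Agent.helper36.PP.SpecE

/-!
# Project pp: module THB (the estimate for exact coefficients)
-/

set_option autoImplicit false

open Complex Metric Set Filter Topology MeasureTheory MPS MQ

noncomputable section

namespace PPS

theorem THB (hTHB0 : THB0_stmt) (hERQ : ERQ_stmt) (hQB : QB_stmt) : THB_stmt := by
  intro n a d₀ hn ha hd
  obtain ⟨R, hR, ε', hε', h0⟩ := hTHB0 n a d₀ hn ha hd
  have hRpos : 0 < R := by linarith
  set M : ℝ := (n : ℝ) ^ 3 * max a 1 * R ^ n with hM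
  have hM0 : 0 ≤ M := by positivity
  have hpi := Real.pi_pos
  have hDpos : 0 < 2 * Real.pi + 4 * (M * Real.pi * R ^ 2) := by positivity
  refine ⟨ε' / (2 * Real.pi + 4 * (M * Real.pi * R ^ 2)), by positivity, ?_⟩
  intro k _ f b g hk hBd hcyc hrho hd0 hex
  obtain ⟨hinv, h1⟩ := h0 f hBd
  have h2 := h1 k b g hk hcyc hrho hd0
  have hQ := hQB n k f b g a R hn hBd.1 hBd.2.1 hR
  have hE := ((hERQ n k f b g hn hBd.1 hcyc hex).2 R
    (M * ∑ m ∈ Finset.range (n - 1), ‖lam f b g m‖) hRpos hinv hQ).2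
  have hL0 : 0 ≤ ∑ m ∈ Finset.range (n - 1), ‖lam f b g m‖ :=
    Finset.sum_nonneg fun m _ => norm_nonneg _
  have hl0 : 0 ≤ Real.log ‖rho f b‖ := Real.log_nonneg hrho.le
  set L : ℝ := ∑ m ∈ Finset.range (n - 1), ‖lam f b g m‖ with hL
  set l : ℝ := Real.log ‖rho f b‖ with hl
  rw [div_le_iff₀ hDpos]
  have hA : 0 ≤ M * Real.pi * R ^ 2 := by positivity
  have e1 : M * L * Real.pi * R ^ 2 = (M * Real.pi * R ^ 2) * L := by ring
  rw [e1] at hE
  nlinarith [mul_nonneg hA hl0, mul_nonneg hpi.le hL0]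

end PPS
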